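import Pool.Agent.KS6_20.PQ.Final

/-!
# Products with odd exponents are not D-algebraic

For every odd `k` the series `∏_{m ≥ 1} (1 - t^m)^{-m^k}` and `∑_{n ≥ 1} σ_{k+1}(n) t^n` are not
D-algebraic, and neither is any nonzero solution `f` of `t f' = (c ∑ σ_{k+1}(n) t^n + g) f` with a
rational number `c ≠ 0` and a D-algebraic series `g`. The case `k = 1` of the product is the
generating function of plane partitions.

* `DAlgebraic f`: some nonzero polynomial with rational coefficients vanishes at
  `(t, f, f', f'', ...)`.
* `finiteProduct k n` is `∏_{1 ≤ m ≤ n} (1 - t^m)^{-m^k}`, and `infiniteProduct k` is its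
  coefficientwise limit: the `n`-th coefficient is that of `finiteProduct k n`.

The library proves that the plane partition series is not D-algebraic, through the holomorphic
Eisenstein type series of weight `3`. Here the weight is an arbitrary odd number `k + 2`.
-/

set_option autoImplicit false

namespace Pool.Agent.Results.MP_e73c56_co.OddExponents

open Pool.Agent.KS6_20.PQ PowerSeries

/-- `∑_n σ_s(n) t^n` with `σ_s(n) = ∑_{d ∣ n} d^s` for `n ≥ 1` and constant coefficient `0`. -/
noncomputable def divisorSeries (s : ℕ) : PowerSeries ℚ :=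
  PowerSeries.mk fun n : ℕ => ((∑ d ∈ n.divisors, d ^ s : ℕ) : ℚ)

/-- The generating function of plane partitions (as in the frozen statement): the `n`-th coefficient
counts the arrays `Fin n × Fin n → ℕ` with weakly decreasing columns and rows and with sum `n`. -/
noncomputable def planePartitionSeries : PowerSeries ℚ :=
  PowerSeries.mk fun n : ℕ =>
    ((Set.ncard {f : Fin n → Fin n → ℕ |
        (∀ i j k : Fin n, i ≤ k → f k j ≤ f i j) ∧
        (∀ i j k : Fin n, j ≤ k → f i k ≤ f i j) ∧
        (∑ i, ∑ j, f i j) = n} : ℕ) : ℚ)

/-- (1) For every odd `k` the series `∑ σ_{k+1}(n) t^n`, the product `∏_{m ≥ 1} (1 - t^m)^{-m^k}` and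
all nonzero solutions of `t f' = (c ∑ σ_{k+1}(n) t^n + g) f`, `c ≠ 0` rational and `g` D-algebraic,
are not D-algebraic. (2) `infiniteProduct k` is the limit of the finite products. (3) The generating
function of plane partitions is `infiniteProduct 1`; so it is not D-algebraic. -/
theorem result :
    (∀ k : ℕ, Odd k →
      ¬ DAlgebraic (divisorSeries (k + 1)) ∧
      ¬ DAlgebraic (infiniteProduct k) ∧
      ∀ (c : ℚ) (g f : PowerSeries ℚ), c ≠ 0 → DAlgebraic g → f ≠ 0 →
        X * PowerSeries.derivative ℚ f = (C c * divisorSeries (k + 1) + g) * f →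
        ¬ DAlgebraic f) ∧
    (∀ k n N : ℕ, n ≤ N → coeff n (finiteProduct k N) = coeff n (infiniteProduct k)) ∧
    planePartitionSeries = infiniteProduct 1 ∧
    ¬ DAlgebraic planePartitionSeries := by
  refine ⟨fun k hk => ?_, coeff_finite, planePartitions_eq, ?_⟩
  · let _ : Wt := ⟨k, hk⟩
    have hF : divisorSeries (k + 1) = F := rfl
    rw [hF]
    exact ⟨not_dalgebraic_F, not_dalgebraic_product k hk,
      fun c g f hc hg hf h => not_dalgebraic_solution c hc g f hg hf h⟩
  · have h : planePartitionSeries = infiniteProduct 1 := planePartitions_eq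
    rw [h]
    exact not_dalgebraic_product 1 (by decide)

end Pool.Agent.Results.MP_e73c56_co.OddExponents
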